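import Pool.Agent.Y120.J.DefsW
import Pool.Agent.Y120.H.FamR

/-!
# Windows for a family with logarithms
-/

set_option autoImplicit false

open PowerSeries Pool.Agent.Y113 Pool.Agent.Y120.GF Pool.Agent.Y120.GH Pool.Agent.Y120.J

namespace Pool.Agent.Y100.J

theorem log_sub {C : ℝ} (hC : 1 ≤ C) {t g : ℕ} (h : (g : ℝ) + C < t) :
    Real.log ((t - g : ℕ) : ℝ) = Real.log t + Real.log (1 - g / t) := by
  have hg0 : (0 : ℝ) ≤ g := by positivity
  have ht0 : (0 : ℝ) < t := by linarith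
  have htg : (g : ℝ) < t := by linarith
  have hcast : ((t - g : ℕ) : ℝ) = (t : ℝ) - g := by
    rw [Nat.cast_sub (by exact_mod_cast htg.le)]
  rw [hcast, ← Real.log_mul ht0.ne']
  · congr 1
    field_simp
  · have : (g : ℝ) / t < 1 := by
      rw [div_lt_one ht0]
      linarith
    linarith

theorem ev_Fg {κ : Type} [Fintype κ] {n : ℕ} {y : κ → ℚ⟦X⟧} {C : ℝ} (hC : 1 ≤ C)
    (hy : ∀ i m, |((coeff m (y i) : ℚ) : ℝ)| ≤ C ^ (m + 1)) {t g : ℕ} (h : (g : ℝ) + C < t)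
    (b : κ × Fin (n + 1)) : ((ev t (Fg (n + 1) y g b) : ℝ) : ℂ) =
      ((ev ((t - g : ℕ) : ℝ) (y b.1) : ℝ) : ℂ) *
        (1 / ((b.2 : ℕ).factorial : ℂ) * ((Real.log (1 - g / t) : ℝ) : ℂ) ^ (b.2 : ℕ)) := by
  have hg0 : (0 : ℝ) ≤ g := by positivity
  have ht0 : (0 : ℝ) < t := by linarith
  have htg : (g : ℝ) < t := by linarith
  have hcast : ((t - g : ℕ) : ℝ) = (t : ℝ) - g := by
    rw [Nat.cast_sub (by exact_mod_cast htg.le)]
  have hval : ∀ i, ev t (sf g (y i)) = ev ((t - g : ℕ) : ℝ) (y i) := by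
    intro i
    have h1 := ou_shift (by linarith) (hy i) g (t := ((t : ℝ) : ℂ)) (by
      rw [Complex.norm_real, Real.norm_of_nonneg ht0.le]
      exact h)
    have h2 : (((t : ℝ) : ℂ)) - (g : ℂ) = ((((t - g : ℕ) : ℝ)) : ℂ) := by
      rw [hcast]
      push_cast
      ring
    rw [h2, ou_ev, ou_ev] at h1
    exact_mod_cast h1
  have hsub : ∀ i, Cv (t : ℝ) (sf g (y i)) := by
    intro i
    have h1 := Pool.Agent.Y120.GH.cx_sf_cv (by linarith) (hy i) g h
    exact h1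
  have h1 : Cv (t : ℝ) (yQ g b.2) := by
    rw [yQ]
    exact (Cv.C _).mul ht0 ((lg_cv (by linarith)).pow ht0 _)
  rw [Fg, Cv.ev_mul ht0 (hsub _) h1, ev_yQ htg, hval]
  push_cast
  ring

theorem t_w3 (h1 : T_W1) (h2 : T_W2) : T_W3 := by
  intro κ _ q C T y hG hT β₀ hβ₀ n R hli
  obtain ⟨q₀, E₀, hsys⟩ := gsys_Fg hG n
  obtain ⟨c, hc⟩ := Tg_ne hT hG.degT
  obtain ⟨C', hC'⟩ := exists_nat_ge C
  set R' : ℕ := R + c + C' + 1 with hR'
  have hF : FamR R' (Fg (n + 1) y) (Pool.Agent.Y120.GH.Tg q T) q₀ E₀ (β₀, (0 : Fin (n + 1))) := by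
    refine ⟨by omega, fun g => ?_, hsys, fun g t h => hc g t (by omega), fun k g hg => hli k g ⟨fun l => ?_, fun l l' hl => ?_⟩⟩
    · show sf g (y β₀) * yQ g ((0 : Fin (n + 1)) : ℕ) = 1
      rw [hβ₀]
      have h1 : sf g 1 = 1 := by
        have := sf_nat g 1
        simpa using this
      rw [h1, one_mul]
      exact yQ_nil g
    · have := hg.1 l
      omega
    · have := hg.2 l l' hl
      omega
  refine ⟨R', fun D k => ?_⟩
  obtain ⟨E, M, hE⟩ := h1 (κ × Fin (n + 1)) R' (Fg (n + 1) y) (Pool.Agent.Y120.GH.Tg q T) q₀ E₀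
    (β₀, (0 : Fin (n + 1))) hF ((n + 1) ^ k * D) k
  refine ⟨max E 1 + (R' + 1), M + R', ?_⟩
  intro H t hHt V _ hV
  have hHt1 : (H + 2) ^ E ≤ t := (Nat.pow_le_pow_right (by omega) (by omega)).trans hHt
  have hHt' : H + R' < t := by
    have h1 : (H + 2) ^ (R' + 1) ≤ t := (Nat.pow_le_pow_right (by omega) (by omega)).trans hHt
    have h2 : R' < 2 ^ R' := Nat.lt_two_pow_self
    have h3 : 2 ^ R' ≤ (H + 2) ^ R' := Nat.pow_le_pow_left (by omega) _
    have h4 : (R' + 1) * (H + 2) ≤ (H + 2) ^ (R' + 1) := by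
      rw [pow_succ]
      exact Nat.mul_le_mul_right _ (by omega)
    have h5 : H + R' < (R' + 1) * (H + 2) := by nlinarith
    omega
  obtain ⟨V', hV'f, hV', h2'⟩ := h2 κ n k D V hV (((Real.log t : ℝ) : ℂ))
  obtain ⟨S, hSc, hS⟩ := hE H t hHt1 V' hV'
  refine ⟨S ∪ Finset.range R', ?_, ?_⟩
  · refine (Finset.card_union_le _ _).trans ?_
    rw [Finset.card_range]
    exact Nat.add_le_add_right hSc _
  · intro g hg hgS hbad
    have hgS1 : ∀ i, g i ∉ S := fun i h => (hgS i).2 (Finset.mem_union_left _ h)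
    have hgS2 : ∀ i, R' ≤ g i := fun i => by
      by_contra h
      push Not at h
      exact (hgS i).2 (Finset.mem_union_right _ (Finset.mem_range.2 h))
    have hlt : ∀ i, ((g i : ℝ)) + C < t := by
      intro i
      have h3 := (hgS i).1
      have h4 : g i + C' < t := by omega
      have h5 : ((g i : ℝ) + C') < t := by exact_mod_cast h4
      linarith
    refine hS g ⟨hgS2, hg⟩ (fun i => ⟨(hgS i).1, hgS1 i⟩) ?_
    have h3 := h2' (fun i => ((Real.log (1 - (g i : ℝ) / t) : ℝ) : ℂ))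
      (fun i β => ((ev ((t - g i : ℕ) : ℝ) (y β) : ℝ) : ℂ)) (by
        refine cast ?_ hbad
        congr 1
        funext b
        refine Finset.prod_congr rfl fun i _ => ?_
        rw [XF, log_sub hG.one_le (hlt i)]
        push_cast
        rfl)
    refine cast ?_ h3
    congr 1
    funext b
    refine Finset.prod_congr rfl fun i _ => ?_
    rw [ev_Fg hG.one_le hG.size (hlt i)]

end Pool.Agent.Y100.J
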